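import Pool.Agent.helper91.SI.Spec

set_option autoImplicit false

namespace Pool.Agent.helper91.SI

open Pool.Agent.helper20.IG (IsIndepDom IsISet iGraph)

theorem CFL (hSLD : SLD_stmt) (hIAD : IAD_stmt) (hDBL : DBL_stmt) : CFL_stmt := by
  intro V _ G S s v t w hT h4 h1 h2 hst
  by_contra hc
  unfold Conf at hc
  push Not at hc
  obtain ⟨hvw, hx⟩ := hc
  have hx' : ∀ x, G.Adj s x → G.Adj t x → ∃ u ∈ S, u ≠ s ∧ u ≠ t ∧ G.Adj u x := by
    intro x a b
    obtain ⟨u, h3, h4, h5, h6⟩ := hx x a b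
    exact ⟨u, h3, h5, h6, h4⟩
  obtain ⟨hne, hC⟩ := hDBL V G S s v t w hT h1 h2 hst hvw hx'
  have hs := h1.2.1
  have ht := h2.2.1
  have hv := h1.2.2.1
  have hw := h2.2.2.1
  have hsv := h1.2.2.2.1
  have htw := h2.2.2.2.1
  have hB := h1.2.2.2.2
  have hD := h2.2.2.2.2
  have hvt : v ≠ t := fun h => hv (h ▸ ht)
  have hws : w ≠ s := fun h => hw (h ▸ hs)
  have hvs : v ≠ s := fun h => hv (h ▸ hs)
  have hwt : w ≠ t := fun h => hw (h ▸ ht)
  have hCD : insert w ((insert v (S.erase s)).erase t) = insert v ((insert w (S.erase t)).erase s) := by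
    ext y
    simp only [Finset.mem_insert, Finset.mem_erase]
    constructor
    · rintro (h | ⟨a, h | ⟨b, c⟩⟩)
      · exact Or.inr ⟨h ▸ hws, Or.inl h⟩
      · exact Or.inl h
      · exact Or.inr ⟨b, Or.inr ⟨a, c⟩⟩
    · rintro (h | ⟨a, h | ⟨b, c⟩⟩)
      · exact Or.inr ⟨h ▸ hvt, Or.inl h⟩
      · exact Or.inl h
      · exact Or.inr ⟨b, Or.inr ⟨a, c⟩⟩
  let A : {S : Finset V // IsISet G S} := ⟨S, h1.1⟩
  let B : {S : Finset V // IsISet G S} := ⟨insert v (S.erase s), hB⟩
  let C : {S : Finset V // IsISet G S} := ⟨insert w ((insert v (S.erase s)).erase t), hC⟩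
  let D : {S : Finset V // IsISet G S} := ⟨insert w (S.erase t), hD⟩
  have hAB : (iGraph G).Adj A B := (hIAD V G A B).2 ⟨s, v, h1, rfl⟩
  have hAD : (iGraph G).Adj A D := (hIAD V G A D).2 ⟨t, w, h2, rfl⟩
  have hBC : (iGraph G).Adj B C := by
    refine (hIAD V G B C).2 ⟨t, w, ⟨hB, ?_, ?_, htw, hC⟩, rfl⟩
    · exact Finset.mem_insert_of_mem (Finset.mem_erase.2 ⟨fun h => hst h.symm, ht⟩)
    · intro h
      rcases Finset.mem_insert.1 h with h | h
      · exact hne h.symm
      · exact hw (Finset.mem_of_mem_erase h)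
  have hDC : (iGraph G).Adj D C := by
    refine (hIAD V G D C).2 ⟨s, v, ⟨hD, ?_, ?_, hsv, ?_⟩, hCD⟩
    · exact Finset.mem_insert_of_mem (Finset.mem_erase.2 ⟨hst, hs⟩)
    · intro h
      rcases Finset.mem_insert.1 h with h | h
      · exact hne h
      · exact hv (Finset.mem_of_mem_erase h)
    · rw [← hCD]; exact hC
  have hAC : A ≠ C := by
    intro h
    have h' : S = insert w ((insert v (S.erase s)).erase t) := congrArg Subtype.val h
    apply hv
    rw [h']
    exact Finset.mem_insert_of_mem (Finset.mem_erase.2 ⟨hvt, Finset.mem_insert_self _ _⟩)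
  have hBD : B ≠ D := by
    intro h
    have h' : insert v (S.erase s) = insert w (S.erase t) := congrArg Subtype.val h
    have h3 : v ∈ insert w (S.erase t) := h' ▸ Finset.mem_insert_self _ _
    rcases Finset.mem_insert.1 h3 with h | h
    · exact hne h
    · exact hv (Finset.mem_of_mem_erase h)
  exact h4 A B C D hAB hBC hDC.symm hAD.symm hAC hBD

end Pool.Agent.helper91.SI
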