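import Pool.Agent.helper91.SI.Spec3

set_option autoImplicit false

namespace Pool.Agent.helper91.SI

open Pool.Agent.helper20.IG (IsIndepDom IsISet iGraph)

theorem CI3 (hIAD : IAD_stmt) (hBAL : BAL_stmt) (hCYM : CYM_stmt) (hNOM : NOM_stmt)
    (hDS3 : DS3_stmt) : CI3_stmt := by
  intro V _ G hT h4 h4i S hS
  choose s v hsl hnx using fun t => (hIAD V G (S t) (S (t + 1))).1 (hS.2 t)
  have hs : ∀ t, s t ∈ (S t).1 := fun t => (hsl t).2.1
  have hv : ∀ t, v t ∉ (S t).1 := fun t => (hsl t).2.2.1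
  have ha : ∀ t, G.Adj (s t) (v t) := fun t => (hsl t).2.2.2.1
  obtain ⟨τ, hτ⟩ := hBAL V (fun t => (S t).1) s v hs hv hnx
  have ha' : ∀ t, G.Adj (s t) (s (τ t)) := fun t => (hτ t) ▸ ha t
  rcases hCYM V G s τ hT ha' with ⟨z, κ, hz, hzk⟩ |
    ⟨q, r, r', a, b, ρ, h1, h2, h3, h5, h6, h7, h8, h9, h10, h11⟩
  · refine hDS3 V G (fun t => (S t).1) z κ hT h4 (fun t => (S t).2.1) hz ?_
    intro t
    obtain ⟨e1, e2⟩ := hzk t
    refine ⟨e1 ▸ hs t, ?_, ?_⟩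
    · rw [← e2, ← hτ t]; exact hv t
    · rw [← e2, ← hτ t, ← e1]; exact hnx t
  · exfalso
    refine hNOM V G (fun t => (S t).1) s v q r r' a b ρ hT h4i
      ⟨⟨fun t => (S t).2, ?_, fun t => ⟨hs t, hv t, ha t, hnx t⟩⟩, h1, h2, h3, h5, h6, ?_,
        h8, ?_, h10, ?_⟩
    · intro x y hxy
      exact hS.1 (Subtype.ext hxy)
    · intro i
      exact ⟨(h7 i).1, by rw [hτ]; exact (h7 i).2⟩
    · rw [hτ]; exact h9
    · rw [hτ]; exact h11

end Pool.Agent.helper91.SI
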